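import Mathlib
import Pool.Agent.W93.TD.Stm

set_option autoImplicit false

namespace Pool.Agent.W903.TD
open Finset

noncomputable section

section
variable {k : ℕ} {F : Type} [Field F] [Fintype F] [Algebra (ZMod 2) F]

/-- linearised polynomials -/
def lp [CharP F 2] (b : Fin k → F) : F →ₗ[ZMod 2] F :=
  AddMonoidHom.toZModLinearMap 2
    { toFun := fun x => ∑ s : Fin k, b s * x ^ (2 ^ (s : ℕ))
      map_zero' := by
        apply Finset.sum_eq_zero
        intro s _
        rw [zero_pow (by positivity), mul_zero]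
      map_add' := by
        intro x y
        rw [← Finset.sum_add_distrib]
        apply Finset.sum_congr rfl
        intro s _
        rw [add_pow_char_pow, mul_add] }

theorem lp_apply [CharP F 2] (b : Fin k → F) (x : F) :
    lp b x = ∑ s : Fin k, b s * x ^ (2 ^ (s : ℕ)) := rfl

theorem lp_inj [CharP F 2] (hF : Fintype.card F = 2 ^ k) :
    Function.Injective (lp : (Fin k → F) → (F →ₗ[ZMod 2] F)) := by
  classical
  intro b b' h
  set p : Polynomial F := ∑ s : Fin k, Polynomial.C (b s - b' s) * Polynomial.X ^ (2 ^ (s : ℕ)) with hp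
  have h1 : ∀ x, p.eval x = 0 := by
    intro x
    have h2 := congrArg (fun l : F →ₗ[ZMod 2] F => l x) h
    simp only [lp_apply] at h2
    rw [hp, Polynomial.eval_finset_sum]
    simp only [Polynomial.eval_mul, Polynomial.eval_C, Polynomial.eval_pow, Polynomial.eval_X,
      sub_mul, Finset.sum_sub_distrib]
    rw [h2, sub_self]
  have hdeg : p.degree < (2 ^ k : ℕ) := by
    apply (Polynomial.degree_sum_le _ _).trans_lt
    rw [Finset.sup_lt_iff (by exact WithBot.bot_lt_coe _)]
    intro s _
    refine (Polynomial.degree_C_mul_X_pow_le _ _).trans_lt ?_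
    exact_mod_cast Nat.pow_lt_pow_right (by norm_num) s.2
  have h3 : p = 0 := by
    apply Polynomial.eq_zero_of_degree_lt_of_eval_finset_eq_zero (s := Finset.univ)
    · rw [Finset.card_univ, hF]; exact hdeg
    · intro x _; exact h1 x
  funext s
  have h4 : p.coeff (2 ^ (s : ℕ)) = b s - b' s := by
    rw [hp, Polynomial.finset_sum_coeff, Finset.sum_eq_single s]
    · rw [Polynomial.coeff_C_mul_X_pow, if_pos rfl]
    · intro t _ hts
      rw [Polynomial.coeff_C_mul_X_pow, if_neg]
      intro h5
      apply hts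
      apply Fin.ext
      exact (Nat.pow_right_injective (le_refl 2) h5).symm
    · intro h; exact absurd (Finset.mem_univ _) h
  rw [h3, Polynomial.coeff_zero] at h4
  exact sub_eq_zero.1 h4.symm

theorem lp_surj [CharP F 2] (hF : Fintype.card F = 2 ^ k) (l : F →ₗ[ZMod 2] F) :
    ∃ b : Fin k → F, lp b = l := by
  classical
  haveI : Module.Finite (ZMod 2) F := Module.Finite.of_finite
  haveI : Finite (F →ₗ[ZMod 2] F) := Finite.of_injective (fun l : F →ₗ[ZMod 2] F => (l : F → F))
    DFunLike.coe_injective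
  haveI : Fintype (F →ₗ[ZMod 2] F) := Fintype.ofFinite _
  have hfr : Module.finrank (ZMod 2) F = k := by
    have h1 := Module.card_eq_pow_finrank (K := ZMod 2) (V := F)
    rw [ZMod.card, hF] at h1
    exact (Nat.pow_right_injective (le_refl 2) h1).symm
  have hc : Fintype.card (Fin k → F) = Fintype.card (F →ₗ[ZMod 2] F) := by
    rw [Module.card_eq_pow_finrank (K := ZMod 2) (V := F →ₗ[ZMod 2] F), ZMod.card,
      Module.finrank_linearMap, hfr, Fintype.card_fun, hF, Fintype.card_fin, pow_mul]
  have h2 : Function.Bijective (lp : (Fin k → F) → (F →ₗ[ZMod 2] F)) :=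
    (Fintype.bijective_iff_injective_and_card _).2 ⟨lp_inj hF, hc⟩
  exact h2.2 l

end

theorem t_LIN : W93.TD.S_LIN := by
  intro k F _ _ _ hF l
  haveI : CharP F 2 := charP_of_injective_algebraMap (algebraMap (ZMod 2) F).injective 2
  obtain ⟨b, hb⟩ := lp_surj hF ((Algebra.linearMap (ZMod 2) F).comp
    (l.comp (LinearMap.inl (ZMod 2) F F)))
  obtain ⟨b', hb'⟩ := lp_surj hF ((Algebra.linearMap (ZMod 2) F).comp
    (l.comp (LinearMap.inr (ZMod 2) F F)))
  refine ⟨fun s => if h : s < k then b ⟨s, h⟩ else 0, fun s => if h : s < k then b' ⟨s, h⟩ else 0,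
    fun x y => ?_⟩
  have h1 : algebraMap (ZMod 2) F (l (x, 0)) = ∑ s : Fin k, b s * x ^ (2 ^ (s : ℕ)) := by
    rw [← lp_apply, hb]; rfl
  have h2 : algebraMap (ZMod 2) F (l (0, y)) = ∑ s : Fin k, b' s * y ^ (2 ^ (s : ℕ)) := by
    rw [← lp_apply, hb']; rfl
  have h3 : l (x, y) = l (x, 0) + l (0, y) := by
    rw [← map_add]; simp
  rw [h3, map_add, h1, h2, Finset.sum_add_distrib, Finset.sum_range, Finset.sum_range]
  congr 1
  · apply Finset.sum_congr rfl
    intro s _
    simp only [s.2, dif_pos, Fin.eta]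
  · apply Finset.sum_congr rfl
    intro s _
    simp only [s.2, dif_pos, Fin.eta]

end

end Pool.Agent.W903.TD
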