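import Mathlib
import Pool.Agent.W102.TD.Defs

set_option autoImplicit false

namespace Pool.Agent.W903.TD
open Finset
open Pool.Agent.W102.TD (wt)

theorem wt_eq (m x : ℕ) : wt m x = ∑ k ∈ range m, if x.testBit k = true then 1 else 0 := by
  unfold wt
  rw [Finset.card_filter]

theorem wt_succ (m x : ℕ) : wt (m + 1) x = x % 2 + wt m (x / 2) := by
  rw [wt_eq, wt_eq, Finset.sum_range_succ', add_comm]
  congr 1
  · rw [Nat.testBit_zero]
    rcases Nat.mod_two_eq_zero_or_one x with h | h <;> simp [h]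
  · apply Finset.sum_congr rfl
    intro k _
    rw [Nat.testBit_succ]

theorem wt_two_pow (m k : ℕ) : wt m (2 ^ k) ≤ 1 := by
  unfold wt
  rw [Finset.card_le_one]
  intro a ha b hb
  rw [Finset.mem_filter, Nat.testBit_two_pow] at ha hb
  simp only [decide_eq_true_eq] at ha hb
  rw [← ha.2, ← hb.2]

theorem wt_zero (m : ℕ) : wt m 0 = 0 := by
  unfold wt; simp

theorem wt_add (m x y : ℕ) : wt m (x + y) ≤ wt m x + wt m y := by
  induction m generalizing x y with
  | zero => simp [wt]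
  | succ m ih =>
    rw [wt_succ, wt_succ, wt_succ]
    have h1 : (x + y) / 2 = x / 2 + y / 2 + (x % 2 + y % 2) / 2 := by omega
    have h2 := ih (x / 2 + y / 2) ((x % 2 + y % 2) / 2)
    have h3 := ih (x / 2) (y / 2)
    rw [← h1] at h2
    have h4 : wt m 1 ≤ 1 := wt_two_pow m 0
    have h5 := wt_zero m
    rcases Nat.mod_two_eq_zero_or_one x with hx | hx <;>
      rcases Nat.mod_two_eq_zero_or_one y with hy | hy
    · rw [hx, hy] at h2
      norm_num [h5] at h2
      omega
    · rw [hx, hy] at h2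
      norm_num [h5] at h2
      omega
    · rw [hx, hy] at h2
      norm_num [h5] at h2
      omega
    · rw [hx, hy] at h2
      norm_num at h2
      omega

theorem wt_full (m : ℕ) : wt m (2 ^ m - 1) = m := by
  unfold wt
  rw [Finset.filter_true_of_mem, Finset.card_range]
  intro k hk
  rw [Nat.testBit_two_pow_sub_one]
  simpa using hk

theorem wt_low (m i : ℕ) (h : i < 2 ^ m) : wt (m + 1) i = wt m i := by
  rw [wt_eq, wt_eq, Finset.sum_range_succ, Nat.testBit_lt_two_pow h]
  simp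

theorem wt_high (m x : ℕ) (h : x < 2 ^ m) : wt (m + 1) (2 ^ m + x) = wt m x + 1 := by
  rw [wt_eq, wt_eq, Finset.sum_range_succ, Nat.testBit_two_pow_add_eq, Nat.testBit_lt_two_pow h]
  simp only [Bool.not_false, if_true]
  congr 1
  apply Finset.sum_congr rfl
  intro k hk
  rw [Nat.testBit_two_pow_add_gt (Finset.mem_range.1 hk)]

theorem t_MUL : Pool.Agent.W102.TD.MUL := by
  intro m i k hi hk hw
  have hm : 1 ≤ m := by omega
  obtain ⟨n, rfl⟩ : ∃ n, m = n + 1 := ⟨m - 1, by omega⟩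
  have e1 : 2 ^ (n + 1) = 2 * 2 ^ n := by rw [pow_succ, mul_comm]
  have e2 : 2 ^ k ≤ 2 ^ n := Nat.pow_le_pow_right (by norm_num) (by omega)
  have e3 : 0 < 2 ^ k := by positivity
  have hA := wt_add (n + 1) i (2 ^ k)
  have hB := wt_two_pow (n + 1) k
  by_cases hN : i + 2 ^ k < 2 ^ (n + 1)
  · have hne : i + 2 ^ k ≠ 2 ^ (n + 1) - 1 := by
      intro h
      rw [h, wt_full] at hA
      omega
    exact ⟨i + 2 ^ k, by omega, by omega, by omega, rfl⟩
  · refine ⟨i + 2 ^ k - 2 ^ (n + 1) + 1, by omega, by omega, ?_, ?_⟩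
    · have h1 := wt_add (n + 1) (i + 2 ^ k - 2 ^ (n + 1)) 1
      have h2 : wt (n + 1) 1 ≤ 1 := wt_two_pow (n + 1) 0
      have h3 := wt_high (n + 1) (i + 2 ^ k - 2 ^ (n + 1)) (by omega)
      have h4 : 2 ^ (n + 1) + (i + 2 ^ k - 2 ^ (n + 1)) = i + 2 ^ k := by omega
      rw [h4] at h3
      have h5 := wt_add (n + 1 + 1) i (2 ^ k)
      have h6 := wt_two_pow (n + 1 + 1) k
      have h7 := wt_low (n + 1) i (by omega)
      omega
    · have h8 : i + 2 ^ k = (i + 2 ^ k - 2 ^ (n + 1) + 1) + (2 ^ (n + 1) - 1) := by omega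
      conv_rhs => rw [h8]
      exact (Nat.add_modEq_right).symm

end Pool.Agent.W903.TD
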